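import Pool.Agent.H46.FS.Core

set_option autoImplicit false

open Cardinal Order Set

namespace Pool.Agent.H46.FS

lemma mk_Iio_ord {c : Cardinal.{0}} (i : c.ord.ToType) : #(Set.Iio i) < c := by
  simpa using Cardinal.mk_Iio_lt i

lemma mk_Iic_ord {c : Cardinal.{0}} (hc : ℵ₀ ≤ c) (i : c.ord.ToType) : #(Set.Iic i) < c := by
  simpa using Cardinal.mk_Iic_lt i (by simp) (by simpa using hc)

/-- small sets are bounded in a regular cardinal -/
lemma bounded_ord {c : Cardinal.{0}} (hc : c.IsRegular) (s : Set c.ord.ToType) (hs : #s < c) :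
    ∃ u, ∀ x ∈ s, x < u := by
  by_contra hcon
  push Not at hcon
  have h1 : IsCofinal s := fun u => by
    obtain ⟨x, hx, hux⟩ := hcon u
    exact ⟨x, hx, hux⟩
  have h2 : Order.cof c.ord.ToType ≤ #s := Order.cof_le h1
  rw [Ordinal.cof_toType, hc.cof_ord] at h2
  exact absurd h2 (not_le.2 hs)

lemma aleph0_le_succ {κ : Cardinal.{0}} (hκ : ℵ₀ ≤ κ) : ℵ₀ ≤ succ κ := hκ.trans (le_succ κ)

lemma pow_eq {κ : Cardinal.{0}} (hκ : ℵ₀ ≤ κ)
    (h2 : (2 : Cardinal.{0}) ^ succ κ = succ (succ κ)) :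
    succ (succ κ) ^ succ κ = succ (succ κ) := by
  rw [← h2, ← Cardinal.power_mul, Cardinal.mul_eq_self (aleph0_le_succ hκ)]

/-- the base case -/
lemma good_base {κ : Cardinal.{0}} (hκ : ℵ₀ ≤ κ)
    (h2 : (2 : Cardinal.{0}) ^ succ κ = succ (succ κ)) :
    Good κ 1 (succ (succ κ)).ord.ToType := by
  classical
  have hκ1 : ℵ₀ ≤ succ κ := aleph0_le_succ hκ
  have hκ2 : ℵ₀ ≤ succ (succ κ) := aleph0_le_succ hκ1
  have hcard : #{t : Set (succ (succ κ)).ord.ToType // #t ≤ succ κ} ≤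
      #((succ (succ κ)).ord.ToType) := by
    refine (Cardinal.mk_bounded_set_le _ _).trans ?_
    rw [Cardinal.mk_ord_toType, max_eq_left hκ2, pow_eq hκ h2]
  obtain ⟨code⟩ := (Cardinal.le_def _ _).1 hcard
  refine ⟨fun x => {A | ∃ (hx : x.Nonempty) (h : #A ≤ succ κ), code ⟨A, h⟩ < x.max' hx}, ?_, ?_⟩
  · intro x
    by_cases hx : x.Nonempty
    · refine le_trans ?_ (Order.le_of_lt_succ (mk_Iio_ord (x.max' hx)))
      refine Cardinal.mk_le_of_injective (f := fun A => ⟨code ⟨A.1, A.2.2.1⟩, A.2.2.2⟩) ?_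
      intro A B hAB
      have h := congrArg Subtype.val hAB
      have h' := code.injective h
      have h'' := congrArg Subtype.val h'
      exact Subtype.ext h''
    · have : {A : Set (succ (succ κ)).ord.ToType | ∃ (hx : x.Nonempty) (h : #A ≤ succ κ),
          code ⟨A, h⟩ < x.max' hx} = ∅ := by
        ext A
        simp [hx]
      show #{A : Set (succ (succ κ)).ord.ToType | ∃ (hx : x.Nonempty) (h : #A ≤ succ κ),
          code ⟨A, h⟩ < x.max' hx} ≤ succ κ
      rw [this]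
      simp
  · intro T hT
    obtain ⟨A, hAT, hA⟩ := Cardinal.le_mk_iff_exists_subset.1 ((le_succ (succ κ)).trans hT)
    have hlt : #(Set.Iic (code ⟨A, hA.le⟩)) < #T := (mk_Iic_ord hκ2 _).trans_le hT
    have : ∃ γ ∈ T, code ⟨A, hA.le⟩ < γ := by
      by_contra hcon
      push Not at hcon
      exact absurd (Cardinal.mk_le_mk_of_subset (s := T) (t := Set.Iic (code ⟨A, hA.le⟩)) hcon)
        (not_le.2 hlt)
    obtain ⟨γ, hγ, hcγ⟩ := this
    refine ⟨{γ}, by simp, by simpa using hγ, A, ⟨Finset.singleton_nonempty γ, hA.le, ?_⟩, hAT, hA⟩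
    simpa using hcγ

end Pool.Agent.H46.FS
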