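import Pool.Agent.H46.FS.Base

set_option autoImplicit false

open Cardinal Order Set

namespace Pool.Agent.H46.FS

section
variable {X M : Type} [LinearOrder X]

/-- `c` is a limit point (from below) of `S` -/
def Acc' (S : Set X) (c : X) : Prop := (∃ a, a < c) ∧ ∀ a < c, ∃ b ∈ S, a < b ∧ b < c

open Classical in
/-- the family transported to the initial segment below `d` -/
def Kd (K : Finset M → Set (Set M)) (e : X → M) (d : X) (x : Finset X) : Set (Set X) :=
  {A | A ⊆ Set.Iio d ∧ e '' A ∈ K (x.image e)}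

lemma Kd_card {K : Finset M → Set (Set M)} {e : X → M} {d : X} (he : Set.InjOn e (Set.Iio d))
    {c : Cardinal.{0}} (hK : ∀ x, #(K x) ≤ c) (x : Finset X) : #(Kd K e d x) ≤ c := by
  classical
  refine le_trans ?_ (hK (x.image e))
  refine Cardinal.mk_le_of_injective (f := fun A => (⟨e '' A.1, ?_⟩ : K (x.image e))) ?_
  · convert A.2.2
  · intro A B hAB
    have h := congrArg Subtype.val hAB
    exact Subtype.ext ((he.image_eq_image_iff A.2.1 B.2.1).1 h)

lemma transport {K : Finset M → Set (Set M)} {e : X → M} {d : X}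
    (he : Set.InjOn e (Set.Iio d)) {κ1 κ2 : Cardinal.{0}} {m : ℕ}
    (hK : ∀ T : Set M, κ2 ≤ #T → ∃ x : Finset M, x.card = m ∧ (x : Set M) ⊆ T ∧
      ∃ A ∈ K x, A ⊆ T ∧ #A = κ1) {T : Set X} (hTd : T ⊆ Set.Iio d) (hT : κ2 ≤ #T) :
    ∃ x : Finset X, x.card = m ∧ (x : Set X) ⊆ T ∧ ∃ A ∈ Kd K e d x, A ⊆ T ∧ #A = κ1 := by
  classical
  have heT : Set.InjOn e T := he.mono hTd
  obtain ⟨x', hx'1, hx'2, A', hA'1, hA'2, hA'3⟩ := hK (e '' T) (by
    rw [Cardinal.mk_image_eq_of_injOn _ _ heT]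
    exact hT)
  obtain ⟨x, hxT, rfl⟩ := Finset.subset_set_image_iff.1 hx'2
  have himg : e '' (T ∩ e ⁻¹' A') = A' := by
    rw [Set.image_inter_preimage]
    exact Set.inter_eq_right.2 hA'2
  refine ⟨x, ?_, hxT, T ∩ e ⁻¹' A', ⟨Set.inter_subset_left.trans hTd, ?_⟩,
    Set.inter_subset_left, ?_⟩
  · rw [Finset.card_image_of_injOn (heT.mono hxT)] at hx'1
    exact hx'1
  · rw [himg]
    convert hA'1
  · rw [← hA'3, ← Cardinal.mk_image_eq_of_injOn e (T ∩ e ⁻¹' A') (heT.mono Set.inter_subset_left),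
      himg]

/-- if all proper initial segments of `T` have size at most `κ⁺`, then subsets of `T` of size at
most `κ⁺` are bounded in `T` -/
lemma bounded_in {κ1 : Cardinal.{0}} (hκ1 : ℵ₀ ≤ κ1) {T : Set X} (hT : succ κ1 ≤ #T)
    (h : ∀ δ ∈ T, #(T ∩ Set.Iio δ : Set X) ≤ κ1) {A : Set X} (hAT : A ⊆ T) (hA : #A ≤ κ1) :
    ∃ t ∈ T, ∀ a ∈ A, a < t := by
  by_contra hcon
  push Not at hcon
  have h1 : T ⊆ ⋃ a : A, (insert a.1 (T ∩ Set.Iio a.1)) := by
    intro t ht
    obtain ⟨a, ha, hta⟩ := hcon t ht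
    rw [Set.mem_iUnion]
    refine ⟨⟨a, ha⟩, ?_⟩
    rcases hta.eq_or_lt with h' | h'
    · exact Or.inl h'
    · exact Or.inr ⟨ht, h'⟩
  have h2 : #(⋃ a : A, (insert a.1 (T ∩ Set.Iio a.1)) : Set X) ≤ κ1 := by
    refine (Cardinal.mk_iUnion_le _).trans ?_
    refine (mul_le_mul' hA (ciSup_le' (a := κ1) ?_)).trans (Cardinal.mul_eq_self hκ1).le
    intro a
    refine (Cardinal.mk_insert_le).trans ?_
    refine (add_le_add (h a.1 (hAT a.2)) ((Cardinal.one_le_aleph0).trans hκ1)).trans ?_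
    exact (Cardinal.add_eq_self hκ1).le
  have h3 := (Cardinal.mk_le_mk_of_subset h1).trans h2
  exact absurd (hT.trans h3) (not_le.2 (lt_succ κ1))

end

section
variable {X M : Type} [LinearOrder X] [WellFoundedLT X]

lemma exists_min {P : X → Prop} (h : ∃ x, P x) : ∃ x, P x ∧ ∀ y, P y → x ≤ y := by
  obtain ⟨m, hm, hmin⟩ := WellFounded.has_min (wellFounded_lt (α := X)) {x | P x} h
  exact ⟨m, hm, fun y hy => not_lt.1 (hmin y hy)⟩

/-- walk lemma -/
lemma walk {C : X → Set X} (hC1 : ∀ δ, ∀ b ∈ C δ, b < δ) {step : X → X → X}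
    (hstep : ∀ ξ δ, ξ < δ → step ξ δ ∈ C δ ∧ ξ ≤ step ξ δ ∧ ∀ b ∈ C δ, ξ ≤ b → step ξ δ ≤ b)
    (c : X) (hc : ∃ a, a < c) :
    ∀ δ, c ≤ δ → ∃ η < c, ∀ ξ, η < ξ → ξ < c → ∃ k : ℕ, c ≤ (step ξ)^[k] δ ∧
      ((step ξ)^[k] δ = c ∨ Acc' (C ((step ξ)^[k] δ)) c) := by
  intro δ
  induction δ using WellFoundedLT.induction with
  | ind δ ih =>
    intro hcδ
    rcases hcδ.eq_or_lt with rfl | hlt
    · obtain ⟨a, ha⟩ := hc
      exact ⟨a, ha, fun ξ _ _ => ⟨0, le_rfl, Or.inl rfl⟩⟩
    · by_cases hacc : Acc' (C δ) c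
      · obtain ⟨a, ha⟩ := hc
        exact ⟨a, ha, fun ξ _ _ => ⟨0, hlt.le, Or.inr hacc⟩⟩
      · have h1 : ∃ a < c, ∀ b ∈ C δ, a < b → c ≤ b := by
          by_contra hcon
          push Not at hcon
          exact hacc ⟨hc, fun a ha => by
            obtain ⟨b, hb1, hb2, hb3⟩ := hcon a ha
            exact ⟨b, hb1, hb2, hb3⟩⟩
        obtain ⟨a, hac, ha⟩ := h1
        obtain ⟨h2, h3, h4⟩ := hstep c δ hlt
        obtain ⟨η', hη', hη⟩ := ih (step c δ) (hC1 δ _ h2) h3
        refine ⟨max a η', max_lt hac hη', ?_⟩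
        intro ξ hξ hξc
        have haξ : a < ξ := (le_max_left _ _).trans_lt hξ
        have hη'ξ : η' < ξ := (le_max_right _ _).trans_lt hξ
        have hs : step ξ δ = step c δ := by
          obtain ⟨g1, g2, g3⟩ := hstep ξ δ (hξc.trans hlt)
          have g4 : c ≤ step ξ δ := ha _ g1 (haξ.trans_le g2)
          exact le_antisymm (g3 _ h2 (hξc.le.trans h3)) (h4 _ g1 g4)
        obtain ⟨k, hk1, hk2⟩ := hη ξ hη'ξ hξc
        refine ⟨k + 1, ?_, ?_⟩
        · rw [Function.iterate_succ_apply, hs]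
          exact hk1
        · rw [Function.iterate_succ_apply, hs]
          exact hk2

/-- the main step: from a family on `M` to a family on `X` with one more variable, given a
coherent system of injections of the initial segments of `X` into `M` -/
lemma step_abs {κ μ : Cardinal.{0}} (hκ : ℵ₀ ≤ κ) (hμ : succ (succ κ) ≤ μ)
    (hX : ∀ s : Set X, #s ≤ μ → ∃ u, ∀ x ∈ s, x < u)
    {m : ℕ} (hm : 1 ≤ m) (hG : Good κ m M) (C : X → Set X) (e : X → X → M)
    (hC1 : ∀ δ, ∀ b ∈ C δ, b < δ) (hC2 : ∀ δ, ∀ a < δ, ∃ b ∈ C δ, a ≤ b)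
    (he : ∀ δ, Set.InjOn (e δ) (Set.Iio δ))
    (hcoh : ∀ δ c, Acc' (C δ) c → ∀ ξ < c, e c ξ = e δ ξ) : Good κ (m + 1) X := by
  classical
  obtain ⟨K, hK1, hK2⟩ := hG
  set κ1 := succ κ with hκ1def
  have hκ1 : ℵ₀ ≤ κ1 := aleph0_le_succ hκ
  -- the walk
  have hst : ∀ ξ δ : X, ∃ s : X, ξ < δ → s ∈ C δ ∧ ξ ≤ s ∧ ∀ b ∈ C δ, ξ ≤ b → s ≤ b := by
    intro ξ δ
    by_cases h : ξ < δ
    · obtain ⟨b, hb1, hb2⟩ := hC2 δ ξ h
      obtain ⟨s, ⟨hs1, hs2⟩, hs3⟩ := exists_min (P := fun b => b ∈ C δ ∧ ξ ≤ b) ⟨b, hb1, hb2⟩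
      exact ⟨s, fun _ => ⟨hs1, hs2, fun b hb hξb => hs3 b ⟨hb, hξb⟩⟩⟩
    · exact ⟨δ, fun h' => absurd h' h⟩
  choose step hstep using hst
  -- the new family
  let Kn : Finset X → Set (Set X) := fun y =>
    if hy : y.Nonempty then
      if hx : (y.erase (y.max' hy)).Nonempty then
        ⋃ k : ℕ, Kd K (e ((step ((y.erase (y.max' hy)).max' hx))^[k] (y.max' hy)))
          ((step ((y.erase (y.max' hy)).max' hx))^[k] (y.max' hy)) (y.erase (y.max' hy))
      else ∅
    else ∅
  have hKn : ∀ (x : Finset X) (hx : x.Nonempty) (δ : X), (∀ a ∈ x, a < δ) → ∀ k : ℕ,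
      Kd K (e ((step (x.max' hx))^[k] δ)) ((step (x.max' hx))^[k] δ) x ⊆ Kn (insert δ x) := by
    intro x hx δ hδ k A hA
    have hδx : δ ∉ x := fun h => lt_irrefl _ (hδ δ h)
    have h1 : (insert δ x).max' (Finset.insert_nonempty δ x) = δ := by
      apply le_antisymm
      · apply Finset.max'_le
        intro b hb
        rcases Finset.mem_insert.1 hb with rfl | hb
        · exact le_rfl
        · exact (hδ b hb).le
      · exact Finset.le_max' _ _ (Finset.mem_insert_self _ _)
    have h2 : (insert δ x).erase ((insert δ x).max' (Finset.insert_nonempty δ x)) = x := by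
      rw [h1, Finset.erase_insert hδx]
    have h3 : ((insert δ x).erase
        ((insert δ x).max' (Finset.insert_nonempty δ x))).Nonempty := by
      rw [h2]; exact hx
    show A ∈ (if hy : (insert δ x).Nonempty then _ else _)
    rw [dif_pos (Finset.insert_nonempty δ x), dif_pos h3, Set.mem_iUnion]
    refine ⟨k, ?_⟩
    have h4 : ((insert δ x).erase
        ((insert δ x).max' (Finset.insert_nonempty δ x))).max' h3 = x.max' hx := by
      congr 1
    rw [h4, h2, h1]
    exact hA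
  refine ⟨Kn, ?_, ?_⟩
  · intro y
    show #(if hy : y.Nonempty then _ else _ : Set (Set X)) ≤ κ1
    split_ifs with hy hx
    · refine (Cardinal.mk_iUnion_le _).trans ?_
      refine (mul_le_mul' (a := #ℕ) (b := κ1) (by simpa using hκ1)
        (ciSup_le' (a := κ1) ?_)).trans (Cardinal.mul_eq_self hκ1).le
      intro k
      exact Kd_card (he _) hK1 _
    · simp
    · simp
  · intro T0 hT0
    obtain ⟨T, hTT0, hTcard⟩ := Cardinal.le_mk_iff_exists_subset.1 hT0
    suffices H : ∃ y : Finset X, y.card = m + 1 ∧ (y : Set X) ⊆ T ∧ ∃ A ∈ Kn y, A ⊆ T ∧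
        #A = κ1 by
      obtain ⟨y, h1, h2, A, h3, h4, h5⟩ := H
      exact ⟨y, h1, h2.trans hTT0, A, h3, h4.trans hTT0, h5⟩
    by_cases hcase : ∃ δ ∈ T, succ κ1 ≤ #(T ∩ Set.Iio δ : Set X)
    · obtain ⟨δ, hδ, hcard⟩ := hcase
      obtain ⟨x, hx1, hx2, A, hA1, hA2, hA3⟩ := transport (he δ) hK2
        (T := T ∩ Set.Iio δ) Set.inter_subset_right hcard
      have hxδ : ∀ a ∈ x, a < δ := fun a ha => (hx2 ha).2
      have hδx : δ ∉ x := fun h => lt_irrefl _ (hxδ δ h)
      have hxne : x.Nonempty := by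
        rw [← Finset.card_pos, hx1]
        exact hm
      refine ⟨insert δ x, ?_, ?_, A, ?_, hA2.trans Set.inter_subset_left, hA3⟩
      · rw [Finset.card_insert_of_notMem hδx, hx1]
      · rw [Finset.coe_insert, Set.insert_subset_iff]
        exact ⟨hδ, hx2.trans Set.inter_subset_left⟩
      · exact hKn x hxne δ hxδ 0 hA1
    · push Not at hcase
      have hseg : ∀ δ ∈ T, #(T ∩ Set.Iio δ : Set X) ≤ κ1 := fun δ hδ =>
        Order.le_of_lt_succ (hcase δ hδ)
      have F2 : ∀ A : Set X, A ⊆ T → #A ≤ κ1 → ∃ t ∈ T, ∀ a ∈ A, a < t := fun A h1 h2 =>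
        bounded_in hκ1 hTcard.ge hseg h1 h2
      obtain ⟨u, hu⟩ := hX T (by rw [hTcard]; exact hμ)
      obtain ⟨θ, hθ1, hθ2⟩ := exists_min (P := fun u => ∀ x ∈ T, x < u) ⟨u, hu⟩
      have F1 : ∀ t ∈ T, ∃ t' ∈ T, t < t' := by
        intro t ht
        obtain ⟨t', ht', h⟩ := F2 {t} (by simpa using ht) (by
          rw [Cardinal.mk_singleton]
          exact (Cardinal.one_le_aleph0).trans hκ1)
        exact ⟨t', ht', h t rfl⟩
      have F0 : ∀ a < θ, ∃ t ∈ T, a < t := by
        intro a ha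
        by_contra hcon
        push Not at hcon
        have : ∀ x ∈ T, x < a := by
          intro x hx
          obtain ⟨t', ht', h⟩ := F1 x hx
          exact h.trans_le (hcon t' ht')
        exact absurd (hθ2 a this) (not_le.2 ha)
      have F3 : ∀ s : ℕ → X, (∀ k, s k < θ) → ∃ t ∈ T, ∀ k, s k < t := by
        intro s hs
        choose t ht1 ht2 using fun k => F0 (s k) (hs k)
        obtain ⟨t', ht', h⟩ := F2 (Set.range t) (by rintro _ ⟨k, rfl⟩; exact ht1 k) (by
          refine (Cardinal.mk_range_le (f := t)).trans ?_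
          simpa using hκ1)
        exact ⟨t', ht', fun k => (ht2 k).trans (h _ ⟨k, rfl⟩)⟩
      -- least upper bounds of strictly increasing sequences
      have F4 : ∀ s : ℕ → X, (∀ k, s k < θ) → (∀ k, s k < s (k + 1)) →
          ∃ c < θ, (∀ k, s k < c) ∧ ∀ a < c, ∃ k, a < s k := by
        intro s hs hinc
        obtain ⟨t, ht, hst⟩ := F3 s hs
        obtain ⟨c, hc1, hc2⟩ := exists_min (P := fun c => ∀ k, s k < c) ⟨t, hst⟩
        refine ⟨c, (hc2 t hst).trans_lt (hθ1 t ht), hc1, ?_⟩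
        intro a ha
        by_contra hcon
        push Not at hcon
        exact absurd (hc2 a (fun k => (hinc k).trans_le (hcon (k + 1)))) (not_le.2 ha)
      -- limit points of `C θ` are unbounded below `θ`
      have F5 : ∀ a < θ, ∃ c, a < c ∧ c < θ ∧ Acc' (C θ) c := by
        intro a ha
        have hnext : ∀ b : X, ∃ b' : X, b < θ → b' ∈ C θ ∧ b < b' ∧ b' < θ := by
          intro b
          by_cases hb : b < θ
          · obtain ⟨t, ht, hbt⟩ := F0 b hb
            obtain ⟨b', hb'1, hb'2⟩ := hC2 θ t (hθ1 t ht)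
            exact ⟨b', fun _ => ⟨hb'1, hbt.trans_le hb'2, hC1 θ _ hb'1⟩⟩
          · exact ⟨b, fun h => absurd h hb⟩
        choose nx hnx using hnext
        let s : ℕ → X := fun k => nx^[k] a
        have hs : ∀ k, s k < θ := by
          intro k
          induction k with
          | zero => exact ha
          | succ k ih =>
            show nx^[k + 1] a < θ
            rw [Function.iterate_succ_apply']
            exact (hnx _ ih).2.2
        have hs' : ∀ k, s (k + 1) = nx (s k) := fun k => Function.iterate_succ_apply' nx k a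
        have hinc : ∀ k, s k < s (k + 1) := by
          intro k
          rw [hs' k]
          exact (hnx _ (hs k)).2.1
        obtain ⟨c, hcθ, hc1, hc2⟩ := F4 s hs hinc
        refine ⟨c, hc1 0, hcθ, ⟨a, hc1 0⟩, ?_⟩
        intro a' ha'
        obtain ⟨k, hk⟩ := hc2 a' ha'
        refine ⟨s (k + 1), ?_, hk.trans (hinc k), hc1 (k + 1)⟩
        rw [hs' k]
        exact (hnx _ (hs k)).1
      let P : X → X → Prop := fun η c => ∃ δ ∈ T, c ≤ δ ∧ ∀ ξ, η < ξ → ξ < c → ∃ k : ℕ,
        c ≤ (step ξ)^[k] δ ∧ ((step ξ)^[k] δ = c ∨ Acc' (C ((step ξ)^[k] δ)) c)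
      have hPmono : ∀ η η' c, η ≤ η' → P η c → P η' c := by
        rintro η η' c h ⟨δ, h1, h2, h3⟩
        exact ⟨δ, h1, h2, fun ξ hξ => h3 ξ (h.trans_lt hξ)⟩
      have hP : ∀ c < θ, (∃ a, a < c) → ∃ η < c, P η c := by
        intro c hc hac
        obtain ⟨δ, hδ, hcδ⟩ := F0 c hc
        obtain ⟨η, hη, h⟩ := walk hC1 hstep c hac δ hcδ.le
        exact ⟨η, hη, δ, hδ, hcδ.le, h⟩
      have F6 : ∃ η < θ, ∀ a < θ, ∃ c, a < c ∧ c < θ ∧ Acc' (C θ) c ∧ P η c := by
        by_contra hcon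
        push Not at hcon
        have hg : ∀ η : X, ∃ a : X, η < θ → a < θ ∧ ∀ c, a < c → c < θ → Acc' (C θ) c →
            ¬ P η c := by
          intro η
          by_cases h : η < θ
          · obtain ⟨a, ha, h'⟩ := hcon η h
            exact ⟨a, fun _ => ⟨ha, h'⟩⟩
          · exact ⟨η, fun h' => absurd h' h⟩
        choose g hg using hg
        have hnext : ∀ b : X, ∃ b' : X, b < θ → b < b' ∧ g b < b' ∧ b' < θ ∧ Acc' (C θ) b' := by
          intro b
          by_cases hb : b < θ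
          · obtain ⟨c, h1, h2, h3⟩ := F5 (max b (g b)) (max_lt hb (hg b hb).1)
            exact ⟨c, fun _ => ⟨(le_max_left _ _).trans_lt h1, (le_max_right _ _).trans_lt h1,
              h2, h3⟩⟩
          · exact ⟨b, fun h => absurd h hb⟩
        choose nx hnx using hnext
        have hTne : T.Nonempty := by
          by_contra h
          rw [Set.not_nonempty_iff_eq_empty] at h
          rw [h] at hTcard
          simp at hTcard
          exact absurd hTcard.symm (Order.bot_lt_succ κ1).ne'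
        obtain ⟨t0, ht0⟩ := hTne
        let s : ℕ → X := fun k => nx^[k] t0
        have hs : ∀ k, s k < θ := by
          intro k
          induction k with
          | zero => exact hθ1 t0 ht0
          | succ k ih =>
            show nx^[k + 1] t0 < θ
            rw [Function.iterate_succ_apply']
            exact (hnx _ ih).2.2.1
        have hs' : ∀ k, s (k + 1) = nx (s k) := fun k => Function.iterate_succ_apply' nx k t0
        have hinc : ∀ k, s k < s (k + 1) := by
          intro k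
          rw [hs' k]
          exact (hnx _ (hs k)).1
        obtain ⟨c, hcθ, hc1, hc2⟩ := F4 s hs hinc
        have hacc : Acc' (C θ) c := by
          refine ⟨⟨_, hc1 0⟩, ?_⟩
          intro a' ha'
          obtain ⟨k, hk⟩ := hc2 a' ha'
          have h1 : Acc' (C θ) (s (k + 1)) := by
            rw [hs' k]
            exact (hnx _ (hs k)).2.2.2
          obtain ⟨b, hb1, hb2, hb3⟩ := h1.2 (s k) (hinc k)
          exact ⟨b, hb1, hk.trans hb2, hb3.trans (hc1 (k + 1))⟩
        obtain ⟨η, hη, hPη⟩ := hP c hcθ ⟨_, hc1 0⟩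
        obtain ⟨k, hk⟩ := hc2 η hη
        refine (hg (s k) (hs k)).2 c ?_ hcθ hacc (hPmono _ _ _ hk.le hPη)
        have h1 := (hnx _ (hs k)).2.1
        rw [← hs' k] at h1
        exact h1.trans (hc1 (k + 1))
      obtain ⟨η, hηθ, hη⟩ := F6
      -- the part of `T` above `η`
      have hT'' : succ κ1 ≤ #(T ∩ Set.Ioi η : Set X) := by
        by_contra hcon
        rw [not_le] at hcon
        obtain ⟨t, ht, hηt⟩ := F0 η hηθ
        have h1 : T ⊆ (T ∩ Set.Iio t) ∪ (T ∩ Set.Ioi η) := by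
          intro x hx
          rcases lt_or_ge η x with h | h
          · exact Or.inr ⟨hx, h⟩
          · exact Or.inl ⟨hx, h.trans_lt hηt⟩
        have h2 := (Cardinal.mk_le_mk_of_subset h1).trans (Cardinal.mk_union_le _ _)
        have h3 : #(T ∩ Set.Iio t : Set X) + #(T ∩ Set.Ioi η : Set X) < succ κ1 :=
          Cardinal.add_lt_of_lt (hκ1.trans (le_succ _))
            ((hseg t ht).trans_lt (lt_succ _)) hcon
        exact absurd (hTcard.ge.trans h2) (not_le.2 h3)
      obtain ⟨x, hx1, hx2, A, hA1, hA2, hA3⟩ := transport (he θ) hK2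
        (T := T ∩ Set.Ioi η) (fun a ha => hθ1 a ha.1) hT''
      have hxne : x.Nonempty := by
        rw [← Finset.card_pos, hx1]
        exact hm
      obtain ⟨t, ht, hAxt⟩ := F2 (A ∪ (x : Set X))
        (Set.union_subset (hA2.trans Set.inter_subset_left) (hx2.trans Set.inter_subset_left)) (by
          refine (Cardinal.mk_union_le _ _).trans ?_
          refine (add_le_add hA3.le ?_).trans (Cardinal.add_eq_self hκ1).le
          exact ((Cardinal.lt_aleph0_iff_set_finite.2 x.finite_toSet).le).trans hκ1)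
      obtain ⟨c, htc, hcθ, hacc, δ, hδT, hcδ, hδ⟩ := hη t (hθ1 t ht)
      have hmaxx : x.max' hxne ∈ x := Finset.max'_mem _ _
      have hξ1 : η < x.max' hxne := (hx2 hmaxx).2
      have hξ2 : x.max' hxne < c := (hAxt _ (Or.inr hmaxx)).trans htc
      obtain ⟨k, hk1, hk2⟩ := hδ _ hξ1 hξ2
      set d := (step (x.max' hxne))^[k] δ with hd
      have hAc : ∀ a ∈ A, a < c := fun a ha => (hAxt a (Or.inl ha)).trans htc
      have hxc : ∀ a ∈ x, a < c := fun a ha => (hAxt a (Or.inr ha)).trans htc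
      have hxδ : ∀ a ∈ x, a < δ := fun a ha => (hxc a ha).trans_le hcδ
      have hed : ∀ a < c, e d a = e θ a := by
        intro a ha
        rcases hk2 with h | h
        · rw [h]
          exact hcoh θ c hacc a ha
        · rw [← hcoh d c h a ha]
          exact hcoh θ c hacc a ha
      have hAd : A ∈ Kd K (e d) d x := by
        refine ⟨fun a ha => (hAc a ha).trans_le hk1, ?_⟩
        have h1 : e d '' A = e θ '' A := Set.image_congr (fun a ha => hed a (hAc a ha))
        have h2 : x.image (e d) = x.image (e θ) :=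
          Finset.image_congr (fun a ha => hed a (hxc a ha))
        have h3 := hA1.2
        rw [h1]
        convert h3 using 2
      have hδx : δ ∉ x := fun h => lt_irrefl _ (hxδ δ h)
      refine ⟨insert δ x, ?_, ?_, A, ?_, hA2.trans Set.inter_subset_left, hA3⟩
      · rw [Finset.card_insert_of_notMem hδx, hx1]
      · rw [Finset.coe_insert, Set.insert_subset_iff]
        exact ⟨hδT, hx2.trans Set.inter_subset_left⟩
      · exact hKn x hxne δ hxδ k hAd

end

end Pool.Agent.H46.FS
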