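import Pool.Agent.H46.FS.Defs
import Pool.Agent.H46.FS.Step

set_option autoImplicit false

open Cardinal Order Set

namespace Pool.Agent.H46.FS

open FirstOrder FirstOrder.Language in
/-- a finitary closure operator witnessing the failure of Chang's conjecture -/
lemma exists_cl {κ : Cardinal.{0}} {X : Type} (hX : #X = succ (succ (succ κ)))
    (hch : ¬ Chang (succ (succ κ)) (succ κ)) :
    ∃ (cl : Set X → Set X) (P : Set X), #P = succ (succ κ) ∧ (∀ s, s ⊆ cl s) ∧
      (∀ s t, s ⊆ t → cl s ⊆ cl t) ∧ (∀ s : Set X, ∀ c : Cardinal.{0}, ℵ₀ ≤ c → #s ≤ c → #(cl s) ≤ c) ∧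
      (∀ s, ∀ x ∈ cl s, ∃ t : Finset X, (t : Set X) ⊆ s ∧ x ∈ cl (t : Set X)) ∧
      (∀ s, #(cl s) = succ (succ κ) → succ κ < #(cl s ∩ P : Set X)) := by
  classical
  unfold Chang at hch
  push Not at hch
  obtain ⟨L, hL, M, inst, P, hM, hP, hS⟩ := hch
  obtain ⟨b⟩ : Nonempty (M ≃ X) := by rw [← Cardinal.eq, hM, hX]
  have hne : Nonempty M := by
    rw [← Cardinal.mk_ne_zero_iff, hM]
    exact (Order.bot_lt_succ _).ne'
  let L' := L.sum L.skolem₁
  let c0 : Set M → Set M := fun s => (Substructure.closure L' s : Set M)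
  have hc0 : ∀ s t, s ⊆ t → c0 s ⊆ c0 t := fun s t h => Substructure.closure_mono h
  refine ⟨fun s => b '' c0 (b ⁻¹' s), b '' P, ?_, ?_, ?_, ?_, ?_, ?_⟩
  · rw [Cardinal.mk_image_eq b.injective, hP]
  · intro s x hx
    refine ⟨b.symm x, Substructure.subset_closure ?_, by simp⟩
    simpa using hx
  · intro s t hst
    exact Set.image_mono (hc0 _ _ (Set.preimage_mono hst))
  · intro s c hc hs
    rw [Cardinal.mk_image_eq b.injective]
    have h1 := Substructure.lift_card_closure_le (L := L') (s := b ⁻¹' s)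
    rw [Cardinal.lift_id, Cardinal.lift_id, Cardinal.lift_id] at h1
    refine h1.trans (max_le hc ?_)
    have h2 : #(Σ n, L'.Functions n) ≤ ℵ₀ := by
      refine (card_functions_sum_skolem₁_le (L := L)).trans ?_
      exact max_le le_rfl hL
    have h3 : #(b ⁻¹' s : Set M) ≤ c := by
      rw [Cardinal.mk_preimage_equiv]
      exact hs
    exact (add_le_add h3 (h2.trans hc)).trans (Cardinal.add_eq_self hc).le
  · rintro s _ ⟨z, hz, rfl⟩
    suffices H : ∃ t : Finset M, (t : Set M) ⊆ b ⁻¹' s ∧ z ∈ c0 t by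
      obtain ⟨t, h1, h2⟩ := H
      refine ⟨t.image b, ?_, z, ?_, rfl⟩
      · rw [Finset.coe_image]
        exact Set.image_subset_iff.2 h1
      · have : b ⁻¹' ((t.image b : Finset X) : Set X) = t := by
          rw [Finset.coe_image]
          exact Set.preimage_image_eq _ b.injective
        rw [this]
        exact h2
    have hz' : z ∈ Substructure.closure L' (b ⁻¹' s) := hz
    refine Substructure.closure_induction
      (p := fun z => ∃ t : Finset M, (t : Set M) ⊆ b ⁻¹' s ∧ z ∈ c0 t) hz' ?_ ?_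
    · intro x hx
      refine ⟨{x}, by simpa using hx, Substructure.subset_closure ?_⟩
      simp
    · intro n f v hv
      have hv' : ∀ i, ∃ t : Finset M, (t : Set M) ⊆ b ⁻¹' s ∧ v i ∈ c0 t := hv
      choose t ht1 ht2 using hv'
      refine ⟨Finset.univ.biUnion t, ?_, ?_⟩
      · intro x hx
        rw [Finset.mem_coe, Finset.mem_biUnion] at hx
        obtain ⟨i, _, hi⟩ := hx
        exact ht1 i hi
      · refine (Substructure.closure L' _).fun_mem f v ?_
        intro i
        refine hc0 _ _ ?_ (ht2 i)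
        exact_mod_cast Finset.subset_biUnion_of_mem t (Finset.mem_univ i)
  · intro s hs
    rw [Cardinal.mk_image_eq b.injective] at hs
    have h1 := hS (Substructure.elementarySkolem₁Reduct (Substructure.closure L' (b ⁻¹' s))) hs
    have h2 : (b '' c0 (b ⁻¹' s) ∩ b '' P) = b '' (c0 (b ⁻¹' s) ∩ P) :=
      (Set.image_inter b.injective).symm
    rw [h2, Cardinal.mk_image_eq b.injective]
    exact h1

/-- from the failure of Chang's conjecture: a two-variable function unbounded on all sets of size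
`κ⁺⁺` -/
lemma exists_unbounded_fn {κ : Cardinal.{0}} (hκ : ℵ₀ ≤ κ)
    (hch : ¬ Chang (succ (succ κ)) (succ κ))
    (e : (succ (succ (succ κ))).ord.ToType → (succ (succ (succ κ))).ord.ToType →
      (succ (succ κ)).ord.ToType)
    (he : ∀ δ, Set.InjOn (e δ) (Set.Iio δ)) :
    ∃ h : (succ (succ (succ κ))).ord.ToType → (succ (succ (succ κ))).ord.ToType →
      (succ (succ κ)).ord.ToType, (∀ β γ, e γ β ≤ h β γ) ∧
      ∀ T : Set (succ (succ (succ κ))).ord.ToType, succ (succ κ) ≤ #T →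
        ∀ ν, ∃ β ∈ T, ∃ γ ∈ T, β < γ ∧ ν < h β γ := by
  classical
  have hκ1 := aleph0_le_succ hκ
  have hκ2 := aleph0_le_succ hκ1
  obtain ⟨cl, P, hP, hcl1, hcl2, hcl3, hcl4, hcl5⟩ := exists_cl
    (X := (succ (succ (succ κ))).ord.ToType) (by simp) hch
  have hPcard : #P = #((succ (succ κ)).ord.ToType) := by rw [hP, Cardinal.mk_ord_toType]
  obtain ⟨p⟩ := Cardinal.eq.1 hPcard
  let Q : (succ (succ (succ κ))).ord.ToType → (succ (succ (succ κ))).ord.ToType →
      Set (succ (succ (succ κ))).ord.ToType :=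
    fun β γ => insert γ {ξ | ξ < γ ∧ e γ ξ ≤ e γ β}
  have hQ : ∀ β γ, #(Q β γ) ≤ succ κ := by
    intro β γ
    refine (Cardinal.mk_insert_le).trans ?_
    have h1 : #{ξ | ξ < γ ∧ e γ ξ ≤ e γ β} ≤ succ κ := by
      have h2 : #{ξ | ξ < γ ∧ e γ ξ ≤ e γ β} ≤ #(Set.Iic (e γ β)) := by
        refine Cardinal.mk_le_of_injective (f := fun ξ => ⟨e γ ξ.1, ξ.2.2⟩) ?_
        intro a b hab
        exact Subtype.ext (he γ a.2.1 b.2.1 (congrArg Subtype.val hab))
      exact h2.trans (Order.le_of_lt_succ (mk_Iic_ord hκ2 _))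
    exact (add_le_add h1 ((Cardinal.one_le_aleph0).trans hκ1)).trans
      (Cardinal.add_eq_self hκ1).le
  have hex : ∀ β γ, ∃ ν : (succ (succ κ)).ord.ToType, e γ β ≤ ν ∧
      ∀ z : P, z.1 ∈ cl (Q β γ) → p z < ν := by
    intro β γ
    obtain ⟨u, hu⟩ := bounded_ord (Cardinal.isRegular_succ hκ1)
      (insert (e γ β) (p '' {z : P | z.1 ∈ cl (Q β γ)})) (by
        refine lt_of_le_of_lt (Cardinal.mk_insert_le) ?_
        have h1 : #(p '' {z : P | z.1 ∈ cl (Q β γ)}) ≤ succ κ := by
          rw [Cardinal.mk_image_eq p.injective]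
          refine le_trans ?_ (hcl3 _ _ hκ1 (hQ β γ))
          refine Cardinal.mk_le_of_injective (f := fun z => ⟨z.1.1, z.2⟩) ?_
          intro a b hab
          have h9 := congrArg Subtype.val hab
          exact Subtype.ext (Subtype.ext h9)
        refine lt_of_le_of_lt ((add_le_add h1 ((Cardinal.one_le_aleph0).trans hκ1)).trans
          (Cardinal.add_eq_self hκ1).le) (lt_succ _))
    exact ⟨u, (hu _ (Set.mem_insert _ _)).le, fun z hz => hu _ (Or.inr ⟨z, hz, rfl⟩)⟩
  choose h h1 h2 using hex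
  refine ⟨h, h1, ?_⟩
  intro T0 hT0 ν
  obtain ⟨T, hTT0, hTcard⟩ := Cardinal.le_mk_iff_exists_subset.1 hT0
  by_contra hcon
  push Not at hcon
  have hbd : ∀ β ∈ T, ∀ γ ∈ T, β < γ → h β γ ≤ ν := fun β hβ γ hγ =>
    hcon β (hTT0 hβ) γ (hTT0 hγ)
  have hcard : #(cl T) = succ (succ κ) := by
    refine le_antisymm (hcl3 T _ hκ2 hTcard.le) ?_
    exact hTcard.ge.trans (Cardinal.mk_le_mk_of_subset (hcl1 T))
  have h3 := hcl5 T hcard
  have h4 : ∀ z : P, z.1 ∈ cl T → p z < ν := by
    intro z hz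
    obtain ⟨t, ht1, ht2⟩ := hcl4 T z.1 hz
    -- enlarge `t` to have at least two elements
    have hinf : T.Infinite := by
      rw [← Set.infinite_coe_iff, Cardinal.infinite_iff, hTcard]
      exact hκ2
    obtain ⟨a, haT, hat⟩ := hinf.exists_notMem_finset t
    obtain ⟨a', ha'T, ha't⟩ := hinf.exists_notMem_finset (insert a t)
    rw [Finset.mem_insert, not_or] at ha't
    let s := insert a' (insert a t)
    have hsne : s.Nonempty := ⟨a', Finset.mem_insert_self _ _⟩
    have hsT : ∀ x ∈ s, x ∈ T := by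
      intro x hx
      rcases Finset.mem_insert.1 hx with rfl | hx
      · exact ha'T
      rcases Finset.mem_insert.1 hx with rfl | hx
      · exact haT
      · exact ht1 hx
    let γ := s.max' hsne
    have hγ : γ ∈ s := Finset.max'_mem _ _
    have hs2 : (s.erase γ).Nonempty := by
      by_cases haγ : a = γ
      · refine ⟨a', Finset.mem_erase.2 ⟨?_, Finset.mem_insert_self _ _⟩⟩
        rw [← haγ]
        exact ha't.1
      · exact ⟨a, Finset.mem_erase.2 ⟨haγ, Finset.mem_insert_of_mem (Finset.mem_insert_self _ _)⟩⟩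
    obtain ⟨β, hβ, hβmax⟩ := Finset.exists_max_image (s.erase γ) (e γ) hs2
    have hβγ : β < γ := by
      have h5 := Finset.mem_erase.1 hβ
      exact lt_of_le_of_ne (Finset.le_max' _ _ h5.2) h5.1
    have hsub : (t : Set _) ⊆ Q β γ := by
      intro x hx
      have hxs : x ∈ s := Finset.mem_insert_of_mem (Finset.mem_insert_of_mem hx)
      by_cases hxγ : x = γ
      · exact Or.inl hxγ
      · right
        exact ⟨lt_of_le_of_ne (Finset.le_max' _ _ hxs) hxγ,
          hβmax x (Finset.mem_erase.2 ⟨hxγ, hxs⟩)⟩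
    have h5 := h2 β γ z (hcl2 _ _ hsub ht2)
    exact h5.trans_le (hbd β (hsT β (Finset.mem_erase.1 hβ).2) γ (hsT γ hγ) hβγ)
  have h6 : #(cl T ∩ P : Set _) ≤ #(Set.Iio ν) := by
    refine Cardinal.mk_le_of_injective (f := fun z => ⟨p ⟨z.1, z.2.2⟩, h4 ⟨z.1, z.2.2⟩ z.2.1⟩) ?_
    intro a b hab
    have h7 := congrArg Subtype.val hab
    have h8 := p.injective h7
    have h9 := congrArg Subtype.val h8
    exact Subtype.ext h9
  exact absurd (h3.trans_le h6) (not_lt.2 (Order.le_of_lt_succ (mk_Iio_ord ν)))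

/-- the third level, from the failure of Chang's conjecture -/
lemma good_chang {κ : Cardinal.{0}} (hκ : ℵ₀ ≤ κ)
    (h2 : (2 : Cardinal.{0}) ^ succ κ = succ (succ κ))
    (hch : ¬ Chang (succ (succ κ)) (succ κ)) :
    Good κ 2 (succ (succ (succ κ))).ord.ToType := by
  classical
  have hκ1 := aleph0_le_succ hκ
  have hκ2 := aleph0_le_succ hκ1
  obtain ⟨K, hK1, hK2⟩ := good_base hκ h2
  -- injections
  have he : ∀ d : (succ (succ (succ κ))).ord.ToType,
      ∃ j : (succ (succ (succ κ))).ord.ToType → (succ (succ κ)).ord.ToType,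
        Set.InjOn j (Set.Iio d) := by
    intro d
    have h1 : #(Set.Iio d) ≤ #((succ (succ κ)).ord.ToType) := by
      rw [Cardinal.mk_ord_toType]
      exact Order.le_of_lt_succ (mk_Iio_ord d)
    obtain ⟨j⟩ := (Cardinal.le_def _ _).1 h1
    have hne : Nonempty ((succ (succ κ)).ord.ToType) := by
      rw [← Cardinal.mk_ne_zero_iff, Cardinal.mk_ord_toType]
      exact (Order.bot_lt_succ _).ne'
    refine ⟨fun x => if hx : x < d then j ⟨x, hx⟩ else Classical.choice hne, ?_⟩
    intro x hx y hy hxy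
    have hx' : x < d := hx
    have hy' : y < d := hy
    simp only [hx', hy', dif_pos] at hxy
    exact congrArg Subtype.val (j.injective hxy)
  choose e he using he
  -- codes
  have hcode : ∀ d : (succ (succ (succ κ))).ord.ToType,
      ∃ code : Set (succ (succ (succ κ))).ord.ToType → (succ (succ κ)).ord.ToType,
        ∀ A B, A ⊆ Set.Iio d → #A ≤ succ κ → B ⊆ Set.Iio d → #B ≤ succ κ →
          code A = code B → A = B := by
    intro d
    have h1 : #{t : Set (succ (succ (succ κ))).ord.ToType // t ⊆ Set.Iio d ∧ #t ≤ succ κ} ≤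
        #((succ (succ κ)).ord.ToType) := by
      refine (Cardinal.mk_bounded_subset_le _ _).trans ?_
      rw [Cardinal.mk_ord_toType]
      refine le_trans ?_ (pow_eq hκ h2).le
      refine Cardinal.power_le_power_right ?_
      exact max_le (Order.le_of_lt_succ (mk_Iio_ord d)) hκ2
    obtain ⟨j⟩ := (Cardinal.le_def _ _).1 h1
    refine ⟨fun A => if h : A ⊆ Set.Iio d ∧ #A ≤ succ κ then j ⟨A, h⟩ else j ⟨∅, by simp⟩, ?_⟩
    intro A B hA1 hA2 hB1 hB2 hAB
    have hA : A ⊆ Set.Iio d ∧ #A ≤ succ κ := ⟨hA1, hA2⟩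
    have hB : B ⊆ Set.Iio d ∧ #B ≤ succ κ := ⟨hB1, hB2⟩
    simp only [dif_pos hA, dif_pos hB] at hAB
    exact congrArg Subtype.val (j.injective hAB)
  choose code hcode using hcode
  obtain ⟨h, hh1, hh2⟩ := exists_unbounded_fn hκ hch e he
  -- the families
  let F : (succ (succ (succ κ))).ord.ToType → (succ (succ (succ κ))).ord.ToType →
      Set (Set (succ (succ (succ κ))).ord.ToType) := fun β γ =>
    ⋃ ξ : {ξ // ξ < γ ∧ e γ ξ ≤ h β γ},
      {A | A ⊆ Set.Iio ξ.1 ∧ #A ≤ succ κ ∧ code ξ.1 A ≤ h β γ}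
  have hF : ∀ β γ, #(F β γ) ≤ succ κ := by
    intro β γ
    refine (Cardinal.mk_iUnion_le _).trans ?_
    refine (mul_le_mul' ?_ (ciSup_le' (a := succ κ) ?_)).trans (Cardinal.mul_eq_self hκ1).le
    · have h2 : #{ξ // ξ < γ ∧ e γ ξ ≤ h β γ} ≤ #(Set.Iic (h β γ)) := by
        refine Cardinal.mk_le_of_injective (f := fun ξ => ⟨e γ ξ.1, ξ.2.2⟩) ?_
        intro a b hab
        exact Subtype.ext (he γ a.2.1 b.2.1 (congrArg Subtype.val hab))
      exact h2.trans (Order.le_of_lt_succ (mk_Iic_ord hκ2 _))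
    · intro ξ
      have h2 : #{A : Set (succ (succ (succ κ))).ord.ToType | A ⊆ Set.Iio ξ.1 ∧ #A ≤ succ κ ∧
          code ξ.1 A ≤ h β γ} ≤ #(Set.Iic (h β γ)) := by
        refine Cardinal.mk_le_of_injective (f := fun A => ⟨code ξ.1 A.1, A.2.2.2⟩) ?_
        intro A B hAB
        exact Subtype.ext (hcode ξ.1 A.1 B.1 A.2.1 A.2.2.1 B.2.1 B.2.2.1
          (congrArg Subtype.val hAB))
      exact h2.trans (Order.le_of_lt_succ (mk_Iic_ord hκ2 _))
  let Kn : Finset (succ (succ (succ κ))).ord.ToType →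
      Set (Set (succ (succ (succ κ))).ord.ToType) := fun y =>
    if hy : y.Nonempty then
      F (y.min' hy) (y.max' hy) ∪ Kd K (e (y.max' hy)) (y.max' hy) (y.erase (y.max' hy))
    else ∅
  have hpair : ∀ β γ, β < γ → F β γ ⊆ Kn {β, γ} ∧ Kd K (e γ) γ {β} ⊆ Kn {β, γ} := by
    intro β γ hβγ
    have hy : ({β, γ} : Finset (succ (succ (succ κ))).ord.ToType).Nonempty := ⟨β, by simp⟩
    have hmin : ({β, γ} : Finset (succ (succ (succ κ))).ord.ToType).min' hy = β := by
      apply le_antisymm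
      · exact Finset.min'_le _ _ (by simp)
      · apply Finset.le_min'
        intro b hb
        simp only [Finset.mem_insert, Finset.mem_singleton] at hb
        rcases hb with rfl | rfl
        · exact le_rfl
        · exact hβγ.le
    have hmax : ({β, γ} : Finset (succ (succ (succ κ))).ord.ToType).max' hy = γ := by
      apply le_antisymm
      · apply Finset.max'_le
        intro b hb
        simp only [Finset.mem_insert, Finset.mem_singleton] at hb
        rcases hb with rfl | rfl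
        · exact hβγ.le
        · exact le_rfl
      · exact Finset.le_max' _ _ (by simp)
    have her : ({β, γ} : Finset (succ (succ (succ κ))).ord.ToType).erase γ = {β} := by
      ext x
      simp only [Finset.mem_erase, Finset.mem_insert, Finset.mem_singleton]
      constructor
      · rintro ⟨h1, h2⟩
        exact h2.resolve_right h1
      · rintro rfl
        exact ⟨hβγ.ne, Or.inl rfl⟩
    have hKn : Kn {β, γ} = F β γ ∪ Kd K (e γ) γ {β} := by
      show (if hy : ({β, γ} : Finset (succ (succ (succ κ))).ord.ToType).Nonempty then _ else _) = _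
      rw [dif_pos hy, hmin, hmax, her]
    rw [hKn]
    exact ⟨Set.subset_union_left, Set.subset_union_right⟩
  refine ⟨Kn, ?_, ?_⟩
  · intro y
    show #(if hy : y.Nonempty then _ else _ : Set (Set _)) ≤ succ κ
    split_ifs with hy
    · refine (Cardinal.mk_union_le _ _).trans ?_
      exact (add_le_add (hF _ _) (Kd_card (he _) hK1 _)).trans (Cardinal.add_eq_self hκ1).le
    · simp
  · intro T0 hT0
    obtain ⟨T, hTT0, hTcard⟩ := Cardinal.le_mk_iff_exists_subset.1 hT0
    suffices H : ∃ β ∈ T, ∃ γ ∈ T, β < γ ∧ ∃ A ∈ Kn {β, γ}, A ⊆ T ∧ #A = succ κ by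
      obtain ⟨β, hβ, γ, hγ, hβγ, A, h3, h4, h5⟩ := H
      refine ⟨{β, γ}, Finset.card_pair hβγ.ne, ?_, A, h3, h4.trans hTT0, h5⟩
      intro x hx
      simp only [Finset.coe_insert, Finset.coe_singleton, Set.mem_insert_iff,
        Set.mem_singleton_iff] at hx
      rcases hx with rfl | rfl
      · exact hTT0 hβ
      · exact hTT0 hγ
    by_cases hcase : ∃ δ ∈ T, succ (succ κ) ≤ #(T ∩ Set.Iio δ : Set _)
    · obtain ⟨δ, hδ, hcard⟩ := hcase
      obtain ⟨x, hx1, hx2, A, hA1, hA2, hA3⟩ := transport (he δ) hK2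
        (T := T ∩ Set.Iio δ) Set.inter_subset_right hcard
      obtain ⟨β, rfl⟩ := Finset.card_eq_one.1 hx1
      have hβ := hx2 (by simp : β ∈ (({β} : Finset _) : Set _))
      exact ⟨β, hβ.1, δ, hδ, hβ.2, A, (hpair β δ hβ.2).2 hA1, hA2.trans Set.inter_subset_left, hA3⟩
    · push Not at hcase
      have hseg : ∀ δ ∈ T, #(T ∩ Set.Iio δ : Set _) ≤ succ κ := fun δ hδ =>
        Order.le_of_lt_succ (hcase δ hδ)
      obtain ⟨A, hAT, hA⟩ := Cardinal.le_mk_iff_exists_subset.1
        ((le_succ (succ κ)).trans hTcard.ge)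
      obtain ⟨γ0, hγ0, hAγ0⟩ := bounded_in hκ1 hTcard.ge hseg hAT hA.le
      have hT' : succ (succ κ) ≤ #(T ∩ Set.Ioi γ0 : Set _) := by
        by_contra hcon
        rw [not_le] at hcon
        have h1 : T ⊆ insert γ0 (T ∩ Set.Iio γ0) ∪ (T ∩ Set.Ioi γ0) := by
          intro x hx
          rcases lt_trichotomy γ0 x with h | h | h
          · exact Or.inr ⟨hx, h⟩
          · exact Or.inl (Or.inl h.symm)
          · exact Or.inl (Or.inr ⟨hx, h⟩)
        have h2 := (Cardinal.mk_le_mk_of_subset h1).trans (Cardinal.mk_union_le _ _)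
        have h3 : #(insert γ0 (T ∩ Set.Iio γ0) : Set _) < succ (succ κ) := by
          refine lt_of_le_of_lt (Cardinal.mk_insert_le) ?_
          exact lt_of_le_of_lt ((add_le_add (hseg γ0 hγ0)
            ((Cardinal.one_le_aleph0).trans hκ1)).trans (Cardinal.add_eq_self hκ1).le) (lt_succ _)
        exact absurd (hTcard.ge.trans h2) (not_le.2 (Cardinal.add_lt_of_lt hκ2 h3 hcon))
      have hkey : ∃ β ∈ T, ∃ γ ∈ T, β < γ ∧ γ0 < γ ∧ e γ γ0 ≤ h β γ ∧ code γ0 A ≤ h β γ := by
        by_contra hcon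
        push Not at hcon
        have h3 : ∀ γ ∈ T, γ0 < γ → e γ γ0 < code γ0 A := by
          intro γ hγ hγγ
          exact (hh1 γ0 γ).trans_lt (hcon γ0 hγ0 γ hγ hγγ hγγ (hh1 γ0 γ))
        obtain ⟨β, hβ, γ, hγ, hβγ, hν⟩ := hh2 (T ∩ Set.Ioi γ0) hT' (code γ0 A)
        exact absurd (hcon β hβ.1 γ hγ.1 hβγ hγ.2 ((h3 γ hγ.1 hγ.2).trans hν).le)
          (not_lt.2 hν.le)
      obtain ⟨β, hβ, γ, hγ, hβγ, hγ0γ, h3, h4⟩ := hkey
      refine ⟨β, hβ, γ, hγ, hβγ, A, (hpair β γ hβγ).1 ?_, hAT, hA⟩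
      rw [Set.mem_iUnion]
      exact ⟨⟨γ0, hγ0γ, h3⟩, fun a ha => hAγ0 a ha, hA.le, h4⟩

end Pool.Agent.H46.FS
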