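import Mathlib

set_option autoImplicit false

open Cardinal Order Set

namespace Pool.Agent.H46.FS

/-- auxiliary notion: on `X` there is a function `K` from finite sets to families of at most `κ⁺`
sets such that every set of size `κ⁺⁺` contains an `m`-element set `x` and a set of size `κ⁺`
belonging to `K x`. -/
def Good (κ : Cardinal.{0}) (m : ℕ) (X : Type) : Prop :=
  ∃ K : Finset X → Set (Set X), (∀ x, #(K x) ≤ succ κ) ∧
    ∀ T : Set X, succ (succ κ) ≤ #T →
      ∃ x : Finset X, x.card = m ∧ (x : Set X) ⊆ T ∧ ∃ A ∈ K x, A ⊆ T ∧ #A = succ κ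

lemma Good.congr {κ : Cardinal.{0}} {m : ℕ} {X Y : Type} (e : X ≃ Y) (h : Good κ m X) :
    Good κ m Y := by
  classical
  obtain ⟨K, hK1, hK2⟩ := h
  refine ⟨fun y => (fun A : Set X => e '' A) '' (K (y.map e.symm.toEmbedding)), ?_, ?_⟩
  · intro y
    exact Cardinal.mk_image_le.trans (hK1 _)
  · intro T hT
    have hT' : succ (succ κ) ≤ #(e ⁻¹' T) := by
      rw [Cardinal.mk_preimage_equiv]
      exact hT
    obtain ⟨x, hx1, hx2, A, hA1, hA2, hA3⟩ := hK2 (e ⁻¹' T) hT'
    refine ⟨x.map e.toEmbedding, by simpa using hx1, ?_, e '' A, ⟨A, ?_, rfl⟩, ?_, ?_⟩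
    · intro y hy
      simp only [Finset.coe_map, Equiv.coe_toEmbedding, Set.mem_image, Finset.mem_coe] at hy
      obtain ⟨a, ha, rfl⟩ := hy
      exact hx2 ha
    · have : (x.map e.toEmbedding).map e.symm.toEmbedding = x := by
        ext a
        simp
      rw [this]
      exact hA1
    · rintro _ ⟨a, ha, rfl⟩
      exact hA2 ha
    · rw [Cardinal.mk_image_eq e.injective]
      exact hA3

/-- systems of distinct representatives for at most `ν` sets of size at least `ν` -/
lemma exists_sdr {S ι : Type} {ν : Cardinal.{0}} (hι : #ι ≤ ν) (A : ι → Set S)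
    (hA : ∀ i, ν ≤ #(A i)) : ∃ g : ι → S, Function.Injective g ∧ ∀ i, g i ∈ A i := by
  classical
  have hle : #ι ≤ #(ν.ord.ToType) := by simpa using hι
  obtain ⟨j⟩ := (Cardinal.le_def _ _).1 hle
  let R : ι → ι → Prop := fun a b => j a < j b
  have hwf : WellFounded R := InvImage.wf j wellFounded_lt
  have hcard : ∀ i, #{i' // R i' i} < ν := by
    intro i
    have h1 : #{i' // R i' i} ≤ #(Set.Iio (j i)) := by
      refine Cardinal.mk_le_of_injective (f := fun a => ⟨j a.1, a.2⟩) ?_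
      intro a b hab
      exact Subtype.ext (j.injective (congrArg Subtype.val hab))
    refine lt_of_le_of_lt h1 ?_
    simpa using Cardinal.mk_Iio_lt (j i)
  have hex : ∀ (i : ι) (g : (i' : ι) → R i' i → S), ∃ s ∈ A i, ∀ i' (h : R i' i), g i' h ≠ s := by
    intro i g
    by_contra hcon
    push Not at hcon
    have h1 : A i ⊆ Set.range (fun a : {i' // R i' i} => g a.1 a.2) := by
      intro s hs
      obtain ⟨i', h, hg⟩ := hcon s hs
      exact ⟨⟨i', h⟩, hg⟩
    have h2 : #(A i) ≤ #{i' // R i' i} := (Cardinal.mk_le_mk_of_subset h1).trans Cardinal.mk_range_le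
    exact absurd ((hA i).trans h2) (not_le.2 (hcard i))
  choose G hG1 hG2 using hex
  let g : ι → S := hwf.fix (fun i f => G i f)
  have hg : ∀ i, g i = G i (fun i' _ => g i') := by
    intro i
    exact hwf.fix_eq _ i
  refine ⟨g, ?_, ?_⟩
  · intro a b hab
    by_contra hne
    have hne' : j a ≠ j b := fun h => hne (j.injective h)
    rcases lt_or_gt_of_ne hne' with h | h
    · have := hG2 b (fun i' _ => g i') a h
      rw [← hg b] at this
      exact this hab
    · have := hG2 a (fun i' _ => g i') b h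
      rw [← hg a] at this
      exact this hab.symm
  · intro i
    rw [hg i]
    exact hG1 i _

lemma diff_finite_card {X : Type} {c : Cardinal.{0}} (hc : ℵ₀ ≤ c) {A : Set X} (hA : c ≤ #A)
    {x : Set X} (hx : x.Finite) : c ≤ #(A \ x : Set X) := by
  by_contra hcon
  rw [not_le] at hcon
  have h1 : #A ≤ #(A \ x : Set X) + #x := by
    have : A ⊆ (A \ x) ∪ x := by
      intro a ha
      by_cases h : a ∈ x
      · exact Or.inr h
      · exact Or.inl ⟨ha, h⟩
    exact (Cardinal.mk_le_mk_of_subset this).trans (Cardinal.mk_union_le _ _)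
  have h2 : #x < c := lt_of_lt_of_le (Cardinal.lt_aleph0_iff_set_finite.2 hx) hc
  exact absurd (hA.trans h1) (not_le.2 (Cardinal.add_lt_of_lt hc hcon h2))

lemma Good.toMap {κ : Cardinal.{0}} (hκ : ℵ₀ ≤ κ) {m : ℕ} {X : Type} (h : Good κ m X) :
    ∃ f : Finset X → Set X, (∀ Y : Finset X, (f Y).Finite ∧ Disjoint (Y : Set X) (f Y)) ∧
      ∀ T : Set X, (∀ Y : Finset X, Y.card = m + 1 → (Y : Set X) ⊆ T → Disjoint T (f Y)) →
        #T < succ (succ κ) := by
  classical
  obtain ⟨K, hK1, hK2⟩ := h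
  have hκ1 : ℵ₀ ≤ succ κ := hκ.trans (le_succ κ)
  have hsel : ∀ x : Finset X, ∃ (g w : {A : Set X // A ∈ K x ∧ #A = succ κ} → X),
      Function.Injective g ∧
      (∀ A, g A ∈ A.1 ∧ g A ∉ x ∧ w A ∈ A.1 ∧ w A ∉ insert (g A) x) := by
    intro x
    have hι : #{A : Set X // A ∈ K x ∧ #A = succ κ} ≤ succ κ := by
      refine le_trans ?_ (hK1 x)
      refine Cardinal.mk_le_of_injective
        (f := fun a : {A : Set X // A ∈ K x ∧ #A = succ κ} => (⟨a.1, a.2.1⟩ : K x)) ?_
      intro a b hab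
      have := congrArg Subtype.val hab
      exact Subtype.ext this
    obtain ⟨g, hg1, hg2⟩ := exists_sdr hι
      (fun a : {A : Set X // A ∈ K x ∧ #A = succ κ} => (a.1 \ (x : Set X) : Set X)) (by
      intro a
      exact diff_finite_card hκ1 a.2.2.ge x.finite_toSet)
    have hw : ∀ a : {A : Set X // A ∈ K x ∧ #A = succ κ}, ∃ w, w ∈ a.1 ∧ w ∉ insert (g a) x := by
      intro a
      have h1 : succ κ ≤ #(a.1 \ ((insert (g a) x : Finset X) : Set X) : Set X) :=
        diff_finite_card hκ1 a.2.2.ge (Finset.finite_toSet _)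
      have h2 : (a.1 \ ((insert (g a) x : Finset X) : Set X) : Set X).Nonempty := by
        by_contra hcon
        rw [Set.not_nonempty_iff_eq_empty] at hcon
        rw [hcon] at h1
        simp at h1
      obtain ⟨w, hw1, hw2⟩ := h2
      exact ⟨w, hw1, fun h => hw2 (by exact_mod_cast h)⟩
    choose w hw1 hw2 using hw
    refine ⟨g, w, hg1, fun A => ⟨(hg2 A).1, ?_, hw1 A, hw2 A⟩⟩
    exact fun h => (hg2 A).2 (by exact_mod_cast h)
  choose g w hgw1 hgw2 using hsel
  refine ⟨fun Y => (⋃ a ∈ Y, {z | ∃ A : {A : Set X // A ∈ K (Y.erase a) ∧ #A = succ κ},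
    g (Y.erase a) A = a ∧ z = w (Y.erase a) A}) \ Y, ?_, ?_⟩
  · intro Y
    refine ⟨?_, Set.disjoint_sdiff_right⟩
    refine Set.Finite.subset (s := ⋃ a ∈ Y, {z | ∃ A : {A : Set X // A ∈ K (Y.erase a) ∧
      #A = succ κ}, g (Y.erase a) A = a ∧ z = w (Y.erase a) A}) ?_ Set.sdiff_subset
    refine Set.Finite.biUnion Y.finite_toSet ?_
    intro a _
    refine Set.Subsingleton.finite ?_
    rintro z ⟨A, hA3, rfl⟩ z' ⟨B, hB3, rfl⟩
    rw [hgw1 _ (hA3.trans hB3.symm)]
  · intro T hT
    by_contra hcon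
    rw [not_lt] at hcon
    obtain ⟨x, hx1, hx2, A, hA1, hA2, hA3⟩ := hK2 T hcon
    obtain ⟨h1, h2, h3, h4⟩ := hgw2 x ⟨A, hA1, hA3⟩
    set a := g x ⟨A, hA1, hA3⟩ with ha
    have hY : (insert a x).card = m + 1 := by
      rw [Finset.card_insert_of_notMem h2, hx1]
    have hYT : ((insert a x : Finset X) : Set X) ⊆ T := by
      rw [Finset.coe_insert, Set.insert_subset_iff]
      exact ⟨hA2 h1, hx2⟩
    have hdis := hT _ hY hYT
    refine (Set.disjoint_left.1 hdis) (hA2 h3) ⟨?_, ?_⟩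
    · simp only [Set.mem_iUnion]
      refine ⟨a, Finset.mem_insert_self _ _, ?_⟩
      rw [Finset.erase_insert h2]
      exact ⟨⟨A, hA1, hA3⟩, rfl, rfl⟩
    · exact fun h => h4 (by exact_mod_cast h)

end Pool.Agent.H46.FS
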