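import Mathlib

set_option autoImplicit false

open Cardinal Order Set

namespace Pool.Agent.H46.FS

/-- `c` is a limit point of the set of ordinals `S`: `c` is not `0` and `S ∩ c` is unbounded
in `c`. -/
def LimPt (S : Set Ordinal.{0}) (c : Ordinal.{0}) : Prop :=
  c ≠ 0 ∧ ∀ a < c, ∃ b ∈ S, a < b ∧ b < c

/-- Jensen's square principle at `μ`: there are sets `C δ`, for the limit ordinals `δ < μ⁺`, such
that `C δ` is a closed unbounded subset of `δ` of order type at most `μ`, and `C c = C δ ∩ c`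
whenever `c < δ` is a limit point of `C δ`. -/
def Square (μ : Cardinal.{0}) : Prop :=
  ∃ C : Ordinal.{0} → Set Ordinal.{0}, ∀ δ < (succ μ).ord, IsSuccLimit δ →
    C δ ⊆ Set.Iio δ ∧ (∀ a < δ, ∃ b ∈ C δ, a < b) ∧ (∀ c < δ, LimPt (C δ) c → c ∈ C δ) ∧
    Ordinal.type (α := C δ) (· < ·) ≤ Ordinal.lift.{1} μ.ord ∧
    ∀ c < δ, LimPt (C δ) c → C c = C δ ∩ Set.Iio c

/-- Chang's conjecture `(lam⁺, lam) ↠ (mu⁺, mu)`: every structure of cardinality `lam⁺` for a
countable language, with a distinguished subset `P` of cardinality `lam`, has an elementary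
substructure of cardinality `mu⁺` which contains at most `mu` elements of `P`. -/
def Chang (lam mu : Cardinal.{0}) : Prop :=
  ∀ (L : FirstOrder.Language.{0, 0}), L.card ≤ ℵ₀ → ∀ (M : Type) [L.Structure M] (P : Set M),
    #M = succ lam → #P = lam →
      ∃ S : L.ElementarySubstructure M, #S = succ mu ∧ #((S : Set M) ∩ P : Set M) ≤ mu

end Pool.Agent.H46.FS
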