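import Pool.Agent.H46.FS.Defs
import Pool.Agent.H46.FS.Step

set_option autoImplicit false

open Cardinal Order Set InitialSeg

namespace Pool.Agent.H46.FS

/-- the ordinal of an element of `o.ToType` -/
noncomputable def tau {o : Ordinal.{0}} (x : o.ToType) : Ordinal.{0} := (Ordinal.ToType.mk.symm x).1

lemma tau_lt {o : Ordinal.{0}} (x : o.ToType) : tau x < o := (Ordinal.ToType.mk.symm x).2

lemma tau_lt_iff {o : Ordinal.{0}} {x y : o.ToType} : tau x < tau y ↔ x < y := by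
  unfold tau
  rw [Subtype.coe_lt_coe]
  exact (Ordinal.ToType.mk.symm).lt_iff_lt

lemma tau_inj {o : Ordinal.{0}} {x y : o.ToType} (h : tau x = tau y) : x = y := by
  have : Ordinal.ToType.mk.symm x = Ordinal.ToType.mk.symm y := Subtype.ext h
  exact (Ordinal.ToType.mk.symm).injective this

lemma exists_tau {o : Ordinal.{0}} {a : Ordinal.{0}} (ha : a < o) : ∃ x : o.ToType, tau x = a :=
  ⟨Ordinal.ToType.mk ⟨a, ha⟩, by simp [tau]⟩

open Classical in
lemma square_data {μ : Cardinal.{0}} (hμ : ℵ₀ ≤ μ) (h : Square μ) :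
    ∃ (C : (succ μ).ord.ToType → Set (succ μ).ord.ToType)
      (e : (succ μ).ord.ToType → (succ μ).ord.ToType → μ.ord.ToType),
      (∀ δ, ∀ b ∈ C δ, b < δ) ∧ (∀ δ, ∀ a < δ, ∃ b ∈ C δ, a ≤ b) ∧
      (∀ δ, Set.InjOn (e δ) (Set.Iio δ)) ∧
      (∀ δ c, Acc' (C δ) c → ∀ ξ < c, e c ξ = e δ ξ) := by
  obtain ⟨D, hD⟩ := h
  let X := (succ μ).ord.ToType
  let C : X → Set X := fun δ => if IsSuccLimit (tau δ) then {x | tau x ∈ D (tau δ)} else
    {x | x < δ ∧ ∀ y < δ, y ≤ x}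
  have hClim : ∀ δ : X, IsSuccLimit (tau δ) → C δ = {x | tau x ∈ D (tau δ)} := fun δ h => if_pos h
  have hCsucc : ∀ δ : X, ¬ IsSuccLimit (tau δ) → C δ = {x | x < δ ∧ ∀ y < δ, y ≤ x} :=
    fun δ h => if_neg h
  have hC1 : ∀ δ, ∀ b ∈ C δ, b < δ := by
    intro δ b hb
    by_cases hl : IsSuccLimit (tau δ)
    · rw [hClim δ hl] at hb
      exact tau_lt_iff.1 ((hD _ (tau_lt δ) hl).1 hb)
    · rw [hCsucc δ hl] at hb
      exact hb.1
  have hC2' : ∀ δ : X, IsSuccLimit (tau δ) → ∀ a < δ, ∃ b ∈ C δ, a < b := by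
    intro δ hl a ha
    obtain ⟨b, hb1, hb2⟩ := (hD _ (tau_lt δ) hl).2.1 (tau a) (tau_lt_iff.2 ha)
    obtain ⟨x, rfl⟩ := exists_tau (((hD _ (tau_lt δ) hl).1 hb1).trans (tau_lt δ))
    refine ⟨x, ?_, tau_lt_iff.1 hb2⟩
    rw [hClim δ hl]
    exact hb1
  have hC2 : ∀ δ, ∀ a < δ, ∃ b ∈ C δ, a ≤ b := by
    intro δ a ha
    by_cases hl : IsSuccLimit (tau δ)
    · obtain ⟨b, hb1, hb2⟩ := hC2' δ hl a ha
      exact ⟨b, hb1, hb2.le⟩
    · have h0 : tau δ ≠ 0 := by
        intro h0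
        have := tau_lt_iff.2 ha
        rw [h0] at this
        exact absurd this (not_lt.2 zero_le)
      rcases Ordinal.zero_or_succ_or_isSuccLimit (tau δ) with h1 | ⟨ε, hε⟩ | h1
      · exact absurd h1 h0
      · have hε' : ε < tau δ := by
          rw [← hε]
          exact lt_succ ε
        obtain ⟨x, rfl⟩ := exists_tau (hε'.trans (tau_lt δ))
        have hxδ : x < δ := tau_lt_iff.1 hε'
        have hmax : ∀ y < δ, y ≤ x := by
          intro y hy
          have h2 := tau_lt_iff.2 hy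
          rw [← hε] at h2
          have h3 := Order.le_of_lt_succ h2
          by_contra hcon
          exact absurd h3 (not_le.2 (tau_lt_iff.2 (not_le.1 hcon)))
        refine ⟨x, ?_, hmax a ha⟩
        rw [hCsucc δ hl]
        exact ⟨hxδ, hmax⟩
      · exact absurd h1 hl
  -- rank functions
  have hf : ∀ δ : X, IsSuccLimit (tau δ) →
      Nonempty ((fun a b : C δ => a < b) ≼i (fun a b : μ.ord.ToType => a < b)) := by
    intro δ hl
    have h1 := (hD _ (tau_lt δ) hl).2.2.2.1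
    rw [← Ordinal.type_lt_Iio, Ordinal.type_le_iff'] at h1
    obtain ⟨g⟩ := h1
    have hmem : ∀ x : C δ, tau x.1 ∈ D (tau δ) := by
      intro x
      have h2 : ∀ y : X, y ∈ C δ → tau y ∈ D (tau δ) := by
        intro y hy
        rw [hClim δ hl] at hy
        exact hy
      exact h2 x.1 x.2
    let g' : C δ → μ.ord.ToType := fun x => Ordinal.ToType.mk (g ⟨tau x.1, hmem x⟩)
    have hg' : ∀ a b : C δ, a < b → g' a < g' b := by
      intro a b hab
      have h2 : (⟨tau a.1, hmem a⟩ : D (tau δ)) < ⟨tau b.1, hmem b⟩ := tau_lt_iff.2 hab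
      have h3 := g.map_rel_iff.2 h2
      exact (Ordinal.ToType.mk).lt_iff_lt.2 h3
    exact ⟨(RelEmbedding.ofMonotone g' hg').collapse⟩
  let f : (δ : X) → (hl : IsSuccLimit (tau δ)) →
      ((fun a b : C δ => a < b) ≼i (fun a b : μ.ord.ToType => a < b)) :=
    fun δ hl => Classical.choice (hf δ hl)
  -- base injections
  have hj : ∀ d : X, ∃ j : X → μ.ord.ToType, Set.InjOn j (Set.Iio d) := by
    intro d
    have h1 : #(Set.Iio d) ≤ #(μ.ord.ToType) := by
      rw [Cardinal.mk_ord_toType]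
      exact Order.le_of_lt_succ (mk_Iio_ord d)
    obtain ⟨j⟩ := (Cardinal.le_def _ _).1 h1
    have hne : Nonempty (μ.ord.ToType) := by
      rw [← Cardinal.mk_ne_zero_iff, Cardinal.mk_ord_toType]
      exact (lt_of_lt_of_le aleph0_pos hμ).ne'
    refine ⟨fun x => if hx : x < d then j ⟨x, hx⟩ else Classical.choice hne, ?_⟩
    intro x hx y hy hxy
    have hx' : x < d := hx
    have hy' : y < d := hy
    simp only [hx', hy', dif_pos] at hxy
    exact congrArg Subtype.val (j.injective hxy)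
  choose j hj using hj
  have hpair : Nonempty (μ.ord.ToType × μ.ord.ToType ≃ μ.ord.ToType) := by
    rw [← Cardinal.eq]
    simp only [Cardinal.mk_prod, Cardinal.lift_id, Cardinal.mk_ord_toType]
    exact Cardinal.mul_eq_self hμ
  obtain ⟨pair⟩ := hpair
  -- the next element
  have hnx : ∀ (δ ξ : X), ∃ b : X, IsSuccLimit (tau δ) → ξ < δ → b ∈ C δ ∧ ξ < b ∧
      ∀ b' ∈ C δ, ξ < b' → b ≤ b' := by
    intro δ ξ
    by_cases h : IsSuccLimit (tau δ) ∧ ξ < δ
    · obtain ⟨b, hb1, hb2⟩ := hC2' δ h.1 ξ h.2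
      obtain ⟨b0, ⟨h1, h2⟩, h3⟩ := exists_min (P := fun b => b ∈ C δ ∧ ξ < b) ⟨b, hb1, hb2⟩
      exact ⟨b0, fun _ _ => ⟨h1, h2, fun b' h4 h5 => h3 b' ⟨h4, h5⟩⟩⟩
    · exact ⟨ξ, fun h1 h2 => absurd ⟨h1, h2⟩ h⟩
  choose nx hnx using hnx
  let e : X → X → μ.ord.ToType := fun δ ξ =>
    if h : IsSuccLimit (tau δ) ∧ ξ < δ then
      pair (f δ h.1 ⟨nx δ ξ, (hnx δ ξ h.1 h.2).1⟩, j (nx δ ξ) ξ)
    else j δ ξ
  have he1 : ∀ (δ ξ : X) (hl : IsSuccLimit (tau δ)) (hξ : ξ < δ), e δ ξ =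
      pair (f δ hl ⟨nx δ ξ, (hnx δ ξ hl hξ).1⟩, j (nx δ ξ) ξ) :=
    fun δ ξ hl hξ => dif_pos ⟨hl, hξ⟩
  have he2 : ∀ (δ ξ : X), ¬ IsSuccLimit (tau δ) → e δ ξ = j δ ξ :=
    fun δ ξ hl => dif_neg (fun h => hl h.1)
  refine ⟨C, e, hC1, hC2, ?_, ?_⟩
  · intro δ
    by_cases hl : IsSuccLimit (tau δ)
    · intro a ha b hb hab
      rw [he1 δ a hl ha, he1 δ b hl hb] at hab
      have h1 := pair.injective hab
      rw [Prod.mk.injEq] at h1
      have h2 := (f δ hl).injective h1.1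
      have h3 : nx δ a = nx δ b := congrArg Subtype.val h2
      have h4 := h1.2
      rw [h3] at h4
      refine hj (nx δ b) ?_ (hnx δ b hl hb).2.1 h4
      rw [← h3]
      exact (hnx δ a hl ha).2.1
    · intro a ha b hb hab
      rw [he2 δ a hl, he2 δ b hl] at hab
      exact hj δ ha hb hab
  · intro δ c hacc ξ hξ
    have hcδ : c ≤ δ := by
      by_contra hcon
      rw [not_le] at hcon
      obtain ⟨b, hb1, hb2, _⟩ := hacc.2 δ hcon
      exact absurd (hC1 δ b hb1) (not_lt.2 hb2.le)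
    rcases hcδ.eq_or_lt with rfl | hcδ
    · rfl
    have hl : IsSuccLimit (tau δ) := by
      by_contra hl
      obtain ⟨b, hb1, hb2, hb3⟩ := hacc.2 ξ hξ
      obtain ⟨b', hb'1, hb'2, hb'3⟩ := hacc.2 b hb3
      rw [hCsucc δ hl] at hb1 hb'1
      exact absurd (hb1.2 b' hb'1.1) (not_le.2 hb'2)
    have hlim : LimPt (D (tau δ)) (tau c) := by
      refine ⟨?_, ?_⟩
      · intro h0
        have := tau_lt_iff.2 hξ
        rw [h0] at this
        exact absurd this (not_lt.2 zero_le)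
      · intro a ha
        obtain ⟨x, rfl⟩ := exists_tau (ha.trans (tau_lt c))
        obtain ⟨b, hb1, hb2, hb3⟩ := hacc.2 x (tau_lt_iff.1 ha)
        rw [hClim δ hl] at hb1
        exact ⟨tau b, hb1, tau_lt_iff.2 hb2, tau_lt_iff.2 hb3⟩
    have hlc : IsSuccLimit (tau c) := by
      rcases Ordinal.zero_or_succ_or_isSuccLimit (tau c) with h1 | ⟨ε, hε⟩ | h1
      · exact absurd h1 hlim.1
      · obtain ⟨b, _, hb2, hb3⟩ := hlim.2 ε (by rw [← hε]; exact lt_succ ε)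
        rw [← hε] at hb3
        exact absurd (Order.le_of_lt_succ hb3) (not_le.2 hb2)
      · exact h1
    have hDc : D (tau c) = D (tau δ) ∩ Set.Iio (tau c) :=
      (hD _ (tau_lt δ) hl).2.2.2.2 _ (tau_lt_iff.2 hcδ) hlim
    have hCc : ∀ x, x ∈ C c ↔ x ∈ C δ ∧ x < c := by
      intro x
      rw [hClim c hlc, hClim δ hl]
      show tau x ∈ D (tau c) ↔ tau x ∈ D (tau δ) ∧ x < c
      rw [hDc, Set.mem_inter_iff, Set.mem_Iio, tau_lt_iff]
    -- inclusion as an initial segment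
    let i : (fun a b : C c => a < b) ≼i (fun a b : C δ => a < b) :=
      { toFun := fun x => ⟨x.1, ((hCc x.1).1 x.2).1⟩
        inj' := by
          intro a b hab
          have := congrArg Subtype.val hab
          exact Subtype.ext this
        map_rel_iff' := by
          intro a b
          exact Iff.rfl
        mem_range_of_rel' := by
          intro a b hab
          have hb : b.1 < a.1 := hab
          exact ⟨⟨b.1, (hCc b.1).2 ⟨b.2, hb.trans ((hCc a.1).1 a.2).2⟩⟩, rfl⟩ }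
    have hfi : ∀ x : C c, f δ hl (i x) = f c hlc x := by
      intro x
      exact InitialSeg.eq (i.trans (f δ hl)) (f c hlc) x
    have hξδ : ξ < δ := hξ.trans hcδ
    have hnxeq : nx c ξ = nx δ ξ := by
      obtain ⟨h1, h2, h3⟩ := hnx c ξ hlc hξ
      obtain ⟨h4, h5, h6⟩ := hnx δ ξ hl hξδ
      have h7 : nx δ ξ ≤ nx c ξ := h6 _ ((hCc _).1 h1).1 h2
      have h8 : nx δ ξ ∈ C c := (hCc _).2 ⟨h4, h7.trans_lt ((hCc _).1 h1).2⟩
      exact le_antisymm (h3 _ h8 h5) h7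
    rw [he1 c ξ hlc hξ, he1 δ ξ hl hξδ]
    have h9 := hfi ⟨nx c ξ, (hnx c ξ hlc hξ).1⟩
    have h10 : i ⟨nx c ξ, (hnx c ξ hlc hξ).1⟩ = ⟨nx δ ξ, (hnx δ ξ hl hξδ).1⟩ :=
      Subtype.ext hnxeq
    rw [h10] at h9
    rw [h9]
    congr 2
    exact congrFun (congrArg j hnxeq) ξ

/-- one more variable, one cardinal up, under square -/
lemma good_step {κ μ : Cardinal.{0}} (hκ : ℵ₀ ≤ κ) (hμ : succ (succ κ) ≤ μ) (hsq : Square μ)
    {m : ℕ} (hm : 1 ≤ m) (hG : Good κ m μ.ord.ToType) : Good κ (m + 1) (succ μ).ord.ToType := by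
  have hμ0 : ℵ₀ ≤ μ := (aleph0_le_succ (aleph0_le_succ hκ)).trans hμ
  obtain ⟨C, e, h1, h2, h3, h4⟩ := square_data hμ0 hsq
  refine step_abs hκ hμ ?_ hm hG C e h1 h2 h3 h4
  intro s hs
  exact bounded_ord (Cardinal.isRegular_succ hμ0) s (hs.trans_lt (lt_succ μ))

end Pool.Agent.H46.FS
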